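import Pool.Agent.helper61.Y2.Spec

set_option autoImplicit false

namespace H61.Y2

open H61.Yorioka Cardinal

lemma E3_sq (j : ℕ) (hj : 6 ≤ j) : (j + 1) ^ 2 ≤ 2 ^ j := by
  induction j, hj using Nat.le_induction with
  | base => norm_num
  | succ j hj ih =>
    have h2 : 2 ^ (j + 1) = 2 * 2 ^ j := by ring
    rw [h2]
    nlinarith

/-- E3 -/
theorem E3 : E3_stmt := by
  intro f T _ hT k
  obtain ⟨m, hm⟩ := hT (8 * k)
  refine ⟨m + 4 * k + 6, fun j hj => ?_⟩
  have hK : m ≤ KK (j + 1) := by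
    have h1 : j + 1 < 2 ^ (j + 1) := Nat.lt_two_pow_self
    have h2 : 2 ^ (j + 1) < 2 ^ 2 ^ (j + 1) := Nat.lt_two_pow_self
    unfold KK
    omega
  have h1 := hm (KK (j + 1)) hK
  unfold ET
  set c := cn T (f (KK (j + 1))) with hc
  have hsq := E3_sq j (by omega)
  have hlin : 4 * k * (j + 1) ≤ 2 ^ j := by
    have : 4 * k * (j + 1) ≤ (j + 1) ^ 2 := by nlinarith
    omega
  have hclog : 4 * (k * Nat.clog 2 c) ≤ 2 ^ j + 4 * k := by
    rcases Nat.lt_or_ge 1 c with hc1 | hc1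
    · have h3 : 2 ^ (Nat.clog 2 c).pred < c := Nat.pow_pred_clog_lt_self (by norm_num) hc1
      have h4 : 2 ^ ((Nat.clog 2 c).pred * (8 * k)) ≤ 2 ^ 2 ^ (j + 1) := by
        rw [pow_mul]
        exact (Nat.pow_le_pow_left h3.le _).trans h1
      have h5 : (Nat.clog 2 c).pred * (8 * k) ≤ 2 ^ (j + 1) :=
        (Nat.pow_le_pow_iff_right (by norm_num)).mp h4
      have h6 : 2 ^ (j + 1) = 2 * 2 ^ j := by ring
      have h7 : Nat.clog 2 c ≤ (Nat.clog 2 c).pred + 1 := by rw [Nat.pred_eq_sub_one]; omega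
      have h8 : k * Nat.clog 2 c ≤ k * ((Nat.clog 2 c).pred + 1) := Nat.mul_le_mul_left _ h7
      rw [h6] at h5
      nlinarith
    · rw [Nat.clog_of_right_le_one hc1]
      simp
  nlinarith

end H61.Y2
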